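import Mathlib

/-!
Let `A` be the associative algebra generated by `X, Y` subject to `U ^ n = 0` for all `U` in the
Lie algebra generated by `X` and `Y`. We show that the monomial `Y ^ (n - 1) X Y ^ (n - 2)` of degree
`2 n - 2` is not zero in `A`, for every `n ≥ 2` and every field.
-/

set_option autoImplicit false
set_option linter.unusedSimpArgs false

open Polynomial

namespace Pool.Agent.Results.MP_776ebc_al.NonzeroMonomial

attribute [local instance] LieRing.ofAssociativeRing

/-- The Lie subalgebra `L_0` of the free algebra generated by `X = ι 0` and `Y = ι 1`. -/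
noncomputable def L0 (K : Type) [Field K] : LieSubalgebra K (FreeAlgebra K (Fin 2)) :=
  LieSubalgebra.lieSpan K (FreeAlgebra K (Fin 2)) {FreeAlgebra.ι K 0, FreeAlgebra.ι K 1}

/-- The two-sided ideal `I` generated by all `U ^ n` with `U` in `L_0`. -/
noncomputable def idealI (K : Type) [Field K] (n : ℕ) : TwoSidedIdeal (FreeAlgebra K (Fin 2)) :=
  TwoSidedIdeal.span {x | ∃ U ∈ L0 K, x = U ^ n}

/-- The monomial attached to a word in the letters `0` (for `X`) and `1` (for `Y`). -/
noncomputable def mono (K : Type) [Field K] (w : List (Fin 2)) : FreeAlgebra K (Fin 2) :=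
  (w.map (FreeAlgebra.ι K)).prod

section model

variable (K : Type) [Field K] (n : ℕ)

/-- `K[u] / (u ^ n)`. -/
abbrev S := AdjoinRoot (X ^ n : K[X])

/-- The element `u`. -/
noncomputable def u0 : S K n := AdjoinRoot.root _

/-- The polynomial `∑ u ^ (n - 1 - i) V ^ i` over `K[u] / (u ^ n)`. -/
noncomputable def pol : (S K n)[X] := ∑ i ∈ Finset.range n, X ^ i * C (u0 K n) ^ (n - 1 - i)

/-- `K[u, v] / (u ^ n, h (u, v))`. -/
abbrev R := AdjoinRoot (pol K n)

/-- The element `u`. -/
noncomputable def uu : R K n := AdjoinRoot.of _ (u0 K n)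

/-- The element `v`. -/
noncomputable def vv : R K n := AdjoinRoot.root _

lemma u0_pow : u0 K n ^ n = 0 := by
  unfold u0
  have := AdjoinRoot.eval₂_root (X ^ n : K[X])
  simpa using this

lemma uu_pow : uu K n ^ n = 0 := by
  unfold uu
  rw [← map_pow, u0_pow, map_zero]

lemma geom : ∑ i ∈ Finset.range n, vv K n ^ i * uu K n ^ (n - 1 - i) = 0 := by
  have := AdjoinRoot.eval₂_root (pol K n)
  unfold pol at this
  rw [eval₂_finsetSum] at this
  simp only [eval₂_mul, eval₂_pow, eval₂_X, eval₂_C] at this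
  exact this

lemma vv_pow : vv K n ^ n = 0 := by
  have h := (Commute.all (vv K n) (uu K n)).geom_sum₂_mul n
  rw [geom, zero_mul, uu_pow, sub_zero] at h
  exact h.symm

lemma S_nontrivial (hn : 2 ≤ n) : Nontrivial (S K n) := AdjoinRoot.nontrivial _ (by
  rw [degree_X_pow]
  exact_mod_cast (by omega : n ≠ 0))

lemma pol_natDegree (hn : 2 ≤ n) : (pol K n).Monic ∧ (pol K n).natDegree = n - 1 := by
  have hnt := S_nontrivial K n hn
  obtain ⟨k, rfl⟩ : ∃ k, n = k + 2 := ⟨n - 2, by omega⟩
  have e : pol K (k + 2) = X ^ (k + 1) +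
      ∑ i ∈ Finset.range (k + 1), X ^ i * C (u0 K (k + 2)) ^ (k + 2 - 1 - i) := by
    unfold pol
    rw [Finset.sum_range_succ, add_comm (X ^ (k + 1))]
    congr 1
    have : k + 2 - 1 - (k + 1) = 0 := by omega
    rw [this, pow_zero, mul_one]
  have hdeg : (∑ i ∈ Finset.range (k + 1), X ^ i * C (u0 K (k + 2)) ^ (k + 2 - 1 - i) :
      (S K (k + 2))[X]).degree < ((k + 1 : ℕ) : WithBot ℕ) := by
    refine lt_of_le_of_lt (degree_sum_le _ _) ?_
    rw [Finset.sup_lt_iff (by exact_mod_cast WithBot.bot_lt_coe _)]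
    intro i hi
    rw [← C_pow, mul_comm]
    refine lt_of_le_of_lt (degree_C_mul_X_pow_le _ _) ?_
    exact_mod_cast Finset.mem_range.mp hi
  have hk : k + 2 - 1 = k + 1 := by omega
  rw [hk]
  constructor
  · rw [e]
    exact monic_X_pow_add hdeg
  · rw [e]
    exact natDegree_eq_of_degree_eq_some (by
      rw [degree_add_eq_left_of_degree_lt (by rw [degree_X_pow]; exact hdeg), degree_X_pow])

lemma u0_ne (hn : 2 ≤ n) : u0 K n ^ (n - 1) ≠ 0 := by
  unfold u0
  intro h
  have h1 : AdjoinRoot.mk (X ^ n : K[X]) (X ^ (n - 1)) = 0 := by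
    rw [map_pow, AdjoinRoot.mk_X]; exact h
  rw [AdjoinRoot.mk_eq_zero] at h1
  have h2 := natDegree_le_of_dvd h1 (pow_ne_zero _ X_ne_zero)
  rw [natDegree_X_pow, natDegree_X_pow] at h2
  omega

lemma uv_ne (hn : 2 ≤ n) : vv K n ^ (n - 2) * uu K n ^ (n - 1) ≠ 0 := by
  have hnt := S_nontrivial K n hn
  intro h
  have h1 : AdjoinRoot.mk (pol K n) (C (u0 K n ^ (n - 1)) * X ^ (n - 2)) = 0 := by
    rw [map_mul, map_pow (AdjoinRoot.mk (pol K n)) X, AdjoinRoot.mk_X, AdjoinRoot.mk_C, map_pow,
      mul_comm]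
    exact h
  rw [AdjoinRoot.mk_eq_zero] at h1
  obtain ⟨hm, hd⟩ := pol_natDegree K n hn
  have hne : (C (u0 K n ^ (n - 1)) * X ^ (n - 2) : (S K n)[X]) ≠ 0 := by
    intro h2
    have h3 := congrArg (fun p => coeff p (n - 2)) h2
    simp only [coeff_C_mul, coeff_X_pow, if_true, mul_one, coeff_zero] at h3
    exact u0_ne K n hn h3
  have h4 := hm.not_dvd_of_degree_lt hne (by
    refine lt_of_le_of_lt (degree_C_mul_X_pow_le _ _) ?_
    rw [degree_eq_natDegree hm.ne_zero, hd]
    exact_mod_cast (by omega : n - 2 < n - 1))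
  exact h4 h1

/-- The matrices of the model. -/
noncomputable def mat (b : K) (g : R K n) : Matrix (Fin 2) (Fin 2) (R K n) :=
  !![b • uu K n, g; 0, b • vv K n]

/-- The representation: `X` is a matrix unit and `Y` is diagonal. -/
noncomputable def phi : FreeAlgebra K (Fin 2) →ₐ[K] Matrix (Fin 2) (Fin 2) (R K n) :=
  FreeAlgebra.lift K ![mat K n 0 1, mat K n 1 0]

lemma phi_L0 {U : FreeAlgebra K (Fin 2)} (hU : U ∈ L0 K) : ∃ b g, phi K n U = mat K n b g := by
  unfold L0 at hU
  induction hU using LieSubalgebra.lieSpan_induction with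
  | mem x hx =>
    rcases hx with rfl | hx
    · exact ⟨0, 1, by unfold phi; rw [FreeAlgebra.lift_ι_apply]; rfl⟩
    · rw [Set.mem_singleton_iff] at hx
      subst hx
      exact ⟨1, 0, by unfold phi; rw [FreeAlgebra.lift_ι_apply]; rfl⟩
  | zero => exact ⟨0, 0, by rw [map_zero]; unfold mat; ext i j; fin_cases i <;> fin_cases j <;> simp⟩
  | add x y _ _ hx hy =>
    obtain ⟨b, g, h⟩ := hx
    obtain ⟨b', g', h'⟩ := hy
    refine ⟨b + b', g + g', ?_⟩
    rw [map_add, h, h']
    unfold mat
    ext i j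
    fin_cases i <;> fin_cases j <;> simp [add_smul]
  | smul r x _ hx =>
    obtain ⟨b, g, h⟩ := hx
    refine ⟨r * b, r • g, ?_⟩
    rw [map_smul, h]
    unfold mat
    ext i j
    fin_cases i <;> fin_cases j <;> simp [mul_smul]
  | lie x y _ _ hx hy =>
    obtain ⟨b, g, h⟩ := hx
    obtain ⟨b', g', h'⟩ := hy
    refine ⟨0, (b • g' - b' • g) * (uu K n - vv K n), ?_⟩
    have e : ⁅x, y⁆ = x * y - y * x := rfl
    rw [e, map_sub, map_mul, map_mul, h, h']
    unfold mat
    ext i j
    fin_cases i <;> fin_cases j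
    · simp [Matrix.mul_apply, Fin.sum_univ_two, smul_smul, mul_comm]
    · simp [Matrix.mul_apply, Fin.sum_univ_two, Algebra.smul_def]
      ring
    · simp [Matrix.mul_apply, Fin.sum_univ_two]
    · simp [Matrix.mul_apply, Fin.sum_univ_two, smul_smul, mul_comm]

lemma mat_pow (b : K) (g : R K n) (m : ℕ) : mat K n b g ^ m =
    !![b ^ m • uu K n ^ m, b ^ (m - 1) • (g * ∑ i ∈ Finset.range m, vv K n ^ i * uu K n ^ (m - 1 - i));
      0, b ^ m • vv K n ^ m] := by
  induction m with
  | zero => ext i j; fin_cases i <;> fin_cases j <;> simp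
  | succ m ih =>
    rw [pow_succ, ih]
    have hs : ∑ i ∈ Finset.range (m + 1), vv K n ^ i * uu K n ^ (m - i) =
        uu K n ^ m + vv K n * ∑ i ∈ Finset.range m, vv K n ^ i * uu K n ^ (m - 1 - i) := by
      rw [Finset.sum_range_succ', Finset.mul_sum, pow_zero, one_mul, Nat.sub_zero, add_comm]
      congr 1
      refine Finset.sum_congr rfl fun i hi => ?_
      have : m - (i + 1) = m - 1 - i := by omega
      rw [this, pow_succ]
      ring
    unfold mat
    ext i j
    fin_cases i <;> fin_cases j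
    · simp [Matrix.mul_apply, Fin.sum_univ_two, pow_succ, Algebra.smul_def]
      ring
    · simp only [Matrix.mul_apply, Fin.sum_univ_two, Fin.zero_eta, Fin.mk_one, Matrix.of_apply,
        Matrix.cons_val', Matrix.cons_val_zero, Matrix.cons_val_one, Matrix.cons_val_fin_one,
        Nat.add_sub_cancel, hs]
      rcases Nat.eq_zero_or_pos m with rfl | hm
      · simp
      · have hb : b ^ m = b ^ (m - 1) * b := by
          rw [← pow_succ]; congr 1; omega
        rw [hb]
        simp only [Algebra.smul_def, map_mul]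
        ring
    · simp [Matrix.mul_apply, Fin.sum_univ_two]
    · simp [Matrix.mul_apply, Fin.sum_univ_two, pow_succ, Algebra.smul_def]
      ring

lemma phi_idealI {x : FreeAlgebra K (Fin 2)} (hx : x ∈ idealI K n) : phi K n x = 0 := by
  have h : idealI K n ≤ TwoSidedIdeal.ker (phi K n) := by
    unfold idealI
    rw [TwoSidedIdeal.span_le]
    rintro y ⟨U, hU, rfl⟩
    rw [SetLike.mem_coe, TwoSidedIdeal.mem_ker, map_pow]
    obtain ⟨b, g, h⟩ := phi_L0 K n hU
    rw [h, mat_pow, geom, uu_pow, vv_pow]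
    ext i j
    fin_cases i <;> fin_cases j <;> simp
  exact (TwoSidedIdeal.mem_ker _).mp (h hx)

end model

/-- The word `Y ^ (n - 1) X Y ^ (n - 2)` of length `2 n - 2`. -/
def word (n : ℕ) : List (Fin 2) := List.replicate (n - 1) 1 ++ 0 :: List.replicate (n - 2) 1

/-- For every field `K` and every `n ≥ 2`, the monomial `Y ^ (n - 1) X Y ^ (n - 2)` of degree
`2 n - 2` does not lie in the ideal generated by all `U ^ n` with `U` in the Lie algebra generated
by `X` and `Y`. -/
theorem result : ∀ (K : Type) [Field K] (n : ℕ), 2 ≤ n →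
    (word n).length = 2 * n - 2 ∧ mono K (word n) ∉ idealI K n := by
  intro K _ n hn
  constructor
  · unfold word
    simp only [List.length_append, List.length_replicate, List.length_cons]
    omega
  · intro h
    have h1 := phi_idealI K n h
    have hX : phi K n (FreeAlgebra.ι K 0) = mat K n 0 1 := by
      unfold phi; rw [FreeAlgebra.lift_ι_apply]; rfl
    have hY : phi K n (FreeAlgebra.ι K 1) = mat K n 1 0 := by
      unfold phi; rw [FreeAlgebra.lift_ι_apply]; rfl
    have h2 : phi K n (mono K (word n)) =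
        mat K n 1 0 ^ (n - 1) * (mat K n 0 1 * mat K n 1 0 ^ (n - 2)) := by
      unfold mono word
      rw [List.map_append, List.prod_append, List.map_cons, List.prod_cons, List.map_replicate,
        List.map_replicate, List.prod_replicate, List.prod_replicate, map_mul, map_mul, map_pow,
        map_pow, hX, hY]
    rw [h2] at h1
    have h3 := congrFun (congrFun h1 0) 1
    rw [mat_pow, mat_pow] at h3
    unfold mat at h3
    simp [Matrix.mul_apply, Fin.sum_univ_two] at h3
    exact uv_ne K n hn (by rw [mul_comm]; exact h3)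

end Pool.Agent.Results.MP_776ebc_al.NonzeroMonomial
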